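import Mathlib
import Pool.Agent.H56P.Cmp

/-!
# The injectivity of the period map, odd zeta values, and the closures of the comparison isomorphisms

## The motives

Let `T` be the category of mixed Tate motives over `ℚ`; it contains `MT(ℤ)` and the `MT(ℤ[1/N])`. Its Tannaka group for the
de Rham fibre functor is `U ⋊ 𝔾_m`, and the graded Lie algebra of `U` is free, with one generator `σ_p` of degree one for
every prime `p` and one generator `σ_n` of degree `n` for every odd `n ≥ 3` (Borel, Deligne, Goncharov). So a motive with a
graded basis of its de Rham realization is the same as a `Mot degree ι` (see `Pool/Agent/H56P/Defs.lean`): the degrees of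
the basis vectors (`k` for the weight `-2 k`) and the nilpotent matrices `N l` of the generators, of which only finitely
many are not zero. The motives in `MT(ℤ)` are those with `N p = 0` for all primes `p`. The complex points of the
motivic Galois group of `M` are the group `gal M` generated by the `exp (c N_l)` and the `t ^ deg`.

The torsor of the isomorphisms from the de Rham to the Betti fibre functor has a rational point `e`, because all
torsors of `U ⋊ 𝔾_m` over `ℚ` are trivial. We use `e` to identify this torsor with the group. The comparison
isomorphism becomes a complex point `x` of the group, that is, a family of elements `x(M)` of the groups `gal M` which is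
compatible with all morphisms (`Point`). On the Tate motive `ℚ(1)` it is `τ = q / (2 π i)` with a rational number `q ≠ 0`,
and on the extension of `ℚ(0)` by `ℚ(n)` which is given by the generator `σ_n` (by `σ_p`) its only other entry is
`a ζ(n) τ ^ n + b` (is `a log(p) τ + b`), with rational numbers `a ≠ 0` and `b`; the numbers `q` and `b` depend on `e`
(`Comparison`). This is all that is used about `x`; the theorem holds for all such `x`, and there are such `x`.

## The theorem

For a set `S` of generators and `D ∈ {0, 1, 2, …, ∞}` let `T(S, D)` be the class of the motives on which the generators
outside of `S` act as zero, and whose weights lie in an interval of length `2 D` (`InClass`). For example `T(S, ∞) = MT(ℤ)`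
if `S` is the set of the odd numbers. A motivic period of `T(S, D)` is a function `p / det ^ k` on the torsor of some `M`
in `T(S, D)`, where `p` is a polynomial in the entries; it is zero if and only if `p` vanishes on `gal M`.

1. The period map is injective on the motivic periods of `T(S, D)` (`PeriodConjecture`) if and only if
   * `ζ(n)` is irrational for all odd `n ≥ 3` in `S` with `n ≤ D` (`OddIrrational`), and
   * for all `M` in `T(S, D)` the closure over `ℚ` of the point `x(M)` in `Iso(M_dR, M_B)` is a torsor, that is, it is stable
     under `(a, b, c) ↦ a b⁻¹ c` (`ClosuresAreTorsors`).
2. For the motives over `ℚ` with weights in an interval of length `12` (`D = 6`) the period map is injective if and only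
   if the closures are torsors. For `D = 8` it is injective if and only if `ζ(7)` is irrational and the closures are
   torsors.
3. There is a set `S`, which contains all primes, the numbers `3` and `5` and for all odd `s` an odd number in
   `[s + 2, 18 s / 5)`, such that the period map is injective on `T(S, ∞)` if and only if the closures of all `x(M)`, `M` in `T(S, ∞)`, are
   torsors.

For `T = MT(ℤ)` statement 1 says: the answer to Q1 is yes if and only if all odd zeta values are irrational and the
polynomial relations over `ℚ` between the entries of each period matrix of a motive in `MT(ℤ)` define a torsor, without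
a condition on the group of this torsor. The definitions which the statement uses are in `Pool/Agent/H56P/Defs.lean` and
`Pool/Agent/H56P/Cmp.lean`.

## Proof

If the period map is injective, then the closure of `x(M)` in the group `gal M` is dense in it, and the closure of such a
point is the Zariski closure of `gal M`, a group; and a rational value of `ζ(n)` would give a relation on a simple extension.
Conversely let `H` be the group generated by the `x⁻¹ s(x)`, where `s` runs through the automorphisms of the field `ℂ`. If
the closure of `x` is a torsor, it contains `x H`. Add `ℚ(1)` and the simple extensions to `M`. The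
elements of `H` have arbitrary scalars on `ℚ(1)`, since `π` is transcendental. The unipotent elements of `H` have coordinates
in the simple extensions, `∏ ℂ(n_l)`. The set of the coordinates is stable under the `t ^ n_l`, so it is a graded subspace
(interpolation with integral coefficients), and it is stable under the automorphisms of `ℂ`. If it is not everything, there is
a rational linear form `r` on the part of some degree `d` which is a coboundary on `H`; it follows that `∑ r_l z_l` is in
`ℚ + ℚ τ ^ d` for the periods `z_l` of the simple extensions. This is excluded by the irrationality of `ζ(d)`, and for
`d = 1` by the theorem of Lindemann. Hence `H` contains all unipotent elements up to commutators, and so all of them,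
because the unipotent part of `gal M` is nilpotent. The irrational zeta values in 2 and 3 are those of the starting
results `WindowsRatio36` and `ZetaFiveMeasureSharp` of `MP_c2395a_nt`.
-/

set_option autoImplicit false

namespace Pool.Agent.Results.MP_e54452_nt.PeriodMapAndTorsors

open Pool.Agent.H56P

/-- **Theorem.** See the beginning of the file. -/
theorem result : Nonempty Comparison ∧ ∀ C : Comparison,
    (∀ (S : Set Generator) (D : ℕ∞),
      (PeriodConjecture C S D ↔ OddIrrational S D ∧ ClosuresAreTorsors C S D)) ∧
    (PeriodConjecture C Set.univ 6 ↔ ClosuresAreTorsors C Set.univ 6) ∧
    (PeriodConjecture C Set.univ 8 ↔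
      Irrational (zeta 7) ∧ ClosuresAreTorsors C Set.univ 8) ∧
    (∃ S : Set Generator, (∀ p, .inl p ∈ S) ∧ .inr 0 ∈ S ∧ .inr 1 ∈ S ∧
      (∀ s : ℕ, Odd s → ∃ k : ℕ, .inr k ∈ S ∧ s + 2 ≤ 2 * k + 3 ∧ 5 * (2 * k + 3) < 18 * s) ∧
      (PeriodConjecture C S ⊤ ↔ ClosuresAreTorsors C S ⊤)) := by
  refine ⟨nonempty_comparison, fun C => ⟨fun S D => period_iff C S D, ?_, ?_, ?_⟩⟩
  · rw [period_iff]
    exact ⟨fun h => h.2, fun h => ⟨irr_six, h⟩⟩
  · rw [period_iff, irr_eight]
  · obtain ⟨S, h1, h2, h3, h4, h5⟩ := exists_generators
    refine ⟨S, h1, h2, h3, h4, ?_⟩
    rw [period_iff]
    exact ⟨fun h => h.2, fun h => ⟨h5, h⟩⟩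

end Pool.Agent.Results.MP_e54452_nt.PeriodMapAndTorsors
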