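import Mathlib
import Pool.Agent.H56P.Cmp

/-!
# The period torsors of mixed Tate motives over `ℚ` and the irrationality of the odd zeta values

## The motives

Let `T` be the category of mixed Tate motives over `ℚ`; it contains `MT(ℤ)` and the `MT(ℤ[1/N])`. Its Tannaka group for the
de Rham fibre functor is `U ⋊ 𝔾_m`, and the graded Lie algebra of `U` is free, with one generator `σ_p` of degree one for
every prime `p` and one generator `σ_n` of degree `n` for every odd `n ≥ 3` (Borel, Deligne, Goncharov). So a motive with a
graded basis of its de Rham realization is the same as a `Mot degree ι` (see `Pool/Agent/H56P/Defs.lean`): the degrees of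
the basis vectors (`k` for the weight `-2 k`) and the nilpotent matrices `N l` of the generators, of which only finitely
many are not zero. The motives in `MT(ℤ)` are those with `N p = 0` for all primes `p`. The complex points of the
motivic Galois group of `M` are the group `gal M` generated by the `exp (c N_l)` and the `t ^ deg`.

The torsor of the isomorphisms from the de Rham to the Betti fibre functor has a rational point `e`, because all
torsors of `U ⋊ 𝔾_m` over `ℚ` are trivial. We use `e` to identify this torsor with the group. The comparison
isomorphism becomes a complex point `x` of the group, that is, a family of elements `x(M)` of the groups `gal M` which is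
compatible with all morphisms (`Point`), and a torsor over `ℚ` in `Iso(M_dR, M_B)` becomes a subset of `GL` which is closed
over `ℚ` and stable under `(a, b, c) ↦ a b⁻¹ c` (`RatClosed`, `Heap`). The following is used about `x`: on the Tate
motive `ℚ(1)` it is `τ = q / (2 π i)` with a rational number `q ≠ 0`, and on the extension of `ℚ(0)` by `ℚ(n)` which is
given by the generator `σ_n` (by `σ_p`) its only other entry is `a ζ(n) τ ^ n + b` (is `a log(p) τ + b`), with rational
numbers `a ≠ 0` and `b`; the numbers `q` and `b` depend on `e` (`Comparison`). The theorem holds for all such `x`, and
there are such `x`.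

## The theorem

For a set `S` of generators and `D ∈ {0, 1, 2, …, ∞}` let `T(S, D)` be the class of the motives on which the generators
outside of `S` act as zero, and whose weights lie in an interval of length `2 D` (`InClass`). For example `T(S, ∞) = MT(ℤ)`
if `S` is the set of the odd numbers.

1. The following statements are equivalent.
   * `ζ(n)` is irrational for all odd `n ≥ 3` in `S` with `n ≤ D` (`OddIrrational`).
   * For all `M` in `T(S, D)` the elements `x(M)⁻¹ s(x(M))`, where `s` runs through the automorphisms of the field `ℂ`,
     generate the group `gal M` (`Generated`).
   * For all `M` in `T(S, D)`, every torsor over `ℚ` that contains `x(M)` contains the torsor of the motivic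
     isomorphisms (`NoSmallerTorsor`; `Ω_M = Ω_M^mot` in the notation used for the conjecture of Grothendieck).
   * The de Rham-Betti realization is fully faithful on `T(S, D)`: if `F_B x(M) = x(M') F_dR` for rational
     matrices `F_B` and `F_dR`, then `F_B = F_dR` is a morphism of motives (`FullyFaithful`).
2. The statements in 1 hold for all mixed Tate motives over `ℚ` with weights in an interval of length `12` (`D = 6`).
3. For the motives over `ℚ` with weights in an interval of length `16` they are equivalent to the irrationality of `ζ(7)`.
4. There is a set `S`, which contains all primes, the numbers `3` and `5` and for all odd `s` an odd number in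
   `[s + 2, 18 s / 5)`, such that the statements in 1 hold for all motives in `T(S, ∞)`.

The question Q1 asks whether the closure over `ℚ` of each `x(M)`, `M` in `MT(ℤ)`, is the whole torsor of the motivic
isomorphisms; the statements in 1 for `S` odd and `D = ∞` say that no smaller torsor contains `x(M)`. The definitions
which the statement uses are in `Pool/Agent/H56P/Defs.lean` and `Pool/Agent/H56P/Cmp.lean`.

## Proof

Let `H` be the group generated by the `x⁻¹ s(x)`; it is stable under the automorphisms of `ℂ`, and a torsor over `ℚ` that
contains `x` contains `x H`. Add `ℚ(1)` and the simple extensions to `M`. The elements of `H` have arbitrary scalars on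
`ℚ(1)`, since `π` is transcendental. The unipotent elements of `H` have coordinates in the simple extensions,
`∏ ℂ(n_l)`. The set of the coordinates is stable under the `t ^ n_l`, so it is a graded subspace (interpolation with integral
coefficients), and it is stable under the automorphisms of `ℂ`. If it is not everything, there is a rational linear form
`r` on the part of some degree `d`, such that `r` is a coboundary on `H`; it follows that `∑ r_l z_l` is in
`ℚ + ℚ τ ^ d` for the periods `z_l` of the simple extensions. This is excluded by the irrationality of `ζ(d)`, and for `d = 1`
by the theorem of Lindemann. Hence `H` contains all unipotent elements up to commutators, and so all of them, because the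
unipotent part of `gal M` is nilpotent.
The irrational zeta values in 2, 3 and 4 are those of the starting results `WindowsRatio36` and
`ZetaFiveMeasureSharp` of `MP_c2395a_nt`.
-/

set_option autoImplicit false

namespace Pool.Agent.Results.MP_e54452_nt.TorsorsAndIrrationality

open Pool.Agent.H56P

/-- **Theorem.** See the beginning of the file. -/
theorem result : Nonempty Comparison ∧ ∀ C : Comparison,
    (∀ (S : Set Generator) (D : ℕ∞),
      List.TFAE [OddIrrational S D, Generated C S D, NoSmallerTorsor C S D, FullyFaithful C S D]) ∧
    (Generated C Set.univ 6 ∧ NoSmallerTorsor C Set.univ 6 ∧ FullyFaithful C Set.univ 6) ∧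
    (FullyFaithful C Set.univ 8 ↔ Irrational (zeta 7)) ∧
    (∃ S : Set Generator, (∀ p, .inl p ∈ S) ∧ .inr 0 ∈ S ∧ .inr 1 ∈ S ∧
      (∀ s : ℕ, Odd s → ∃ k : ℕ, .inr k ∈ S ∧ s + 2 ≤ 2 * k + 3 ∧ 5 * (2 * k + 3) < 18 * s) ∧
      Generated C S ⊤ ∧ NoSmallerTorsor C S ⊤ ∧ FullyFaithful C S ⊤) := by
  refine ⟨nonempty_comparison, fun C => ⟨fun S D => tfae C S D,
    ⟨((tfae C _ _).out 0 1).1 irr_six, ((tfae C _ _).out 0 2).1 irr_six,
      ((tfae C _ _).out 0 3).1 irr_six⟩, ?_, ?_⟩⟩
  · have h0 : OddIrrational Set.univ 8 ↔ FullyFaithful C Set.univ 8 :=
      (tfae C Set.univ 8).out 0 3
    rw [← h0, irr_eight]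
  · obtain ⟨S, h1, h2, h3, h4, h5⟩ := exists_generators
    exact ⟨S, h1, h2, h3, h4,
      ((tfae C _ _).out 0 1).1 h5, ((tfae C _ _).out 0 2).1 h5, ((tfae C _ _).out 0 3).1 h5⟩

end Pool.Agent.Results.MP_e54452_nt.TorsorsAndIrrationality
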