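import Mathlib
import Pool.Agent.H56F.Fin

/-!
# The period torsors of mixed Tate motives over the field of all algebraic numbers

## The motives

As in `TorsorsAndIrrationality`. Let `T` be the category of mixed Tate motives over `ℚ`; it contains `MT(ℤ)` and the
`MT(ℤ[1/N])`. Its Tannaka group for the de Rham fibre functor is `U ⋊ 𝔾_m`, and the graded Lie algebra of `U` is free,
with one generator `σ_p` of degree one for every prime `p` and one generator `σ_n` of degree `n` for every odd `n ≥ 3`
(Borel, Deligne, Goncharov). So a motive with a graded basis of its de Rham realization is the same as a
`Mot degree ι` (see `Pool/Agent/H56P/Defs.lean`): the degrees of the basis vectors (`k` for the weight `-2 k`) and the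
nilpotent matrices `N l` of the generators, of which only finitely many are not zero. The motives in `MT(ℤ)` are those
with `N p = 0` for all primes `p`. The complex points of the motivic Galois group of `M` are the group `gal M`
generated by the `exp (c N_l)` and the `t ^ deg`.

The torsor of the isomorphisms from the de Rham to the Betti fibre functor has a rational point `e`; we use it to
identify this torsor with the group. The comparison isomorphism becomes a complex point `x` of the group: a family of
elements `x(M)` of the groups `gal M` which is compatible with all morphisms (`Point`). On the Tate motive `ℚ(1)` it is
`τ = q / (2 π i)` with a rational number `q ≠ 0`, and on the extension of `ℚ(0)` by `ℚ(n)` which is given by the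
generator `σ_n` (by `σ_p`) its only other entry is `a ζ(n) τ ^ n + b` (is `a log(p) τ + b`), with rational numbers
`a ≠ 0` and `b` (`Comparison`). The theorem holds for all such `x`, and there are such `x`.

## The theorem

For a set `S` of generators and `D ∈ {0, 1, 2, …, ∞}` let `T(S, D)` be the class of the motives on which the generators
outside of `S` act as zero, and whose weights lie in an interval of length `2 D` (`InClass`). For example
`T(S, ∞) = MT(ℤ)` if `S` is the set of the odd numbers. Let `F` be a subfield of `ℂ`. Consider the following
properties, in which `ℚ` of the conjecture of Grothendieck is replaced by `F` (for the field `F` of all algebraic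
numbers this is the point of view of André and of Bost and Charles).

* `Generated F`: for all `M` in `T(S, D)` the elements `x(M)⁻¹ s(x(M))`, where `s` runs through the automorphisms
  of the field `ℂ` which fix `F`, generate the group `gal M`.
* `NoSmallerTorsor F`: for all `M` in `T(S, D)`, every torsor over `F` that contains `x(M)` contains the torsor of
  the motivic isomorphisms.
* `FullyFaithful F`: the de Rham-Betti realization with coefficients in `F` is fully faithful: if `M ⊕ M'` is in
  `T(S, D)` and `A x(M) = x(M') A'` for matrices `A` and `A'` with entries in `F`, then `A = A'`, and this matrix is
  compatible with the generators and the grading, that is, an `F`-linear combination of morphisms (`MorOver`).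

1. For the field `F` of all algebraic numbers (`Qbar`) the three properties are equivalent to each other and to: for
   all odd `n ≥ 3` in `S` with `n ≤ D` the numbers `1`, `π ^ n`, `ζ(n)` are linearly independent over the algebraic
   numbers (`Independent`).
2. For the field `F` of all real algebraic numbers (`RealQbar`) the three properties are equivalent to each other and
   to: for all odd `n ≥ 3` in `S` with `n ≤ D` the number `ζ(n)` is transcendental (`OddTranscendental`).
3. If `D ≤ 2` or if all elements of `S` are primes, then the three properties hold for the field of all algebraic
   numbers: so they hold for all mixed Tate motives over `ℚ` with weights in an interval of length `4`, and for all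
   those, of any length, on which the generators of degree at least three act as zero.

So no property of the multiple zeta values of depth two or more enters: what all motives `M` together require is
the independence in the extensions of `ℚ(0)` by `ℚ(n)`.

## Proof

Let `H` be the group generated by the `x⁻¹ s(x)`, `s` an automorphism over `F`; it is stable under these
automorphisms, and a torsor over `F` that contains `x` contains `x H`. Add `ℚ(1)` and the simple extensions to `M`.
The elements of `H` have arbitrary scalars on `ℚ(1)`, since `π` is transcendental over `F`. The unipotent elements of
`H` have coordinates in the simple extensions, `∏ ℂ(n_l)`. The set of the coordinates is stable under the `t ^ n_l`,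
so it is a graded subspace, and it is stable under the automorphisms of `ℂ` over `F`; hence it is defined over `F`
(`F` is countable, so that an element which is fixed by these automorphisms is in `F`). If it is not
everything, there is a linear form `r` with coefficients in `F` on the part of some degree `d`, such that `r` is a
coboundary on `H`; it follows that `∑ r_l z_l` is in `F + F τ ^ d` for the periods `z_l` of the simple extensions. For
`d = 1` this is excluded by the theorem of Baker, since the logarithms of the primes and `2 π i` are linearly
independent over `ℚ`; for `d ≥ 3` it is the linear dependence of `1`, `(2 π i) ^ d`, `ζ(d)` over `F`. So `H` contains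
all unipotent elements up to commutators, hence all of them.
-/

set_option autoImplicit false

namespace Pool.Agent.Results.MP_e54452_nt.TorsorsOverAlgebraicNumbers

open Pool.Agent.H56F

/-- **Theorem.** See the beginning of the file. -/
theorem result : Nonempty Comparison ∧ ∀ (C : Comparison) (S : Set Generator) (D : ℕ∞),
    List.TFAE [Independent S D, Generated Qbar C S D, NoSmallerTorsor Qbar C S D,
      FullyFaithful Qbar C S D] ∧
    List.TFAE [OddTranscendental S D, Generated RealQbar C S D, NoSmallerTorsor RealQbar C S D,
      FullyFaithful RealQbar C S D] ∧
    ((D ≤ 2 ∨ ∀ l ∈ S, ∃ p, l = .inl p) →
      Generated Qbar C S D ∧ NoSmallerTorsor Qbar C S D ∧ FullyFaithful Qbar C S D) := by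
  refine ⟨nonempty_comparison, fun C S D => ⟨tfae_Qbar C S D, tfae_real C S D, fun h => ?_⟩⟩
  have h1 := independent_of S D h
  exact ⟨((tfae_Qbar C S D).out 0 1).1 h1, ((tfae_Qbar C S D).out 0 2).1 h1,
    ((tfae_Qbar C S D).out 0 3).1 h1⟩

end Pool.Agent.Results.MP_e54452_nt.TorsorsOverAlgebraicNumbers
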